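import Mathlib

set_option autoImplicit false

/-!
# The rank-two recurrence set of rational maps need not be semi-linear

We take `f = g = z ^ 2` and `c = ω / z` with `ω` a primitive cube root of unity.  A pair `(m, n)`
lies in the recurrence set iff `x ^ (2 ^ m + 1) = ω = x ^ (2 ^ n + 1)` for some `x`.  If
`m = 3 ^ k`, then `3 ^ (k + 1)` divides `2 ^ m + 1`, hence `3 ^ (k + 1)` divides `2 ^ n + 1` for
every `n` in the slice over `m`, and the slice is infinite.  A semi-linear set with infinite slices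
has a period `(0, q)`, `q` from a finite set, and `3 ^ (k + 1)` would divide `2 ^ q - 1`.
-/

namespace Pool.Agent.Results.MP_2fa0cb_nt.RankTwoNotSemilinear

open Polynomial
open scoped OnePoint Pointwise

/-- The self-map of `P¹(ℂ) = ℂ ∪ {∞}` given by a rational function `h = num / denom` (in lowest
terms).  A finite point `x` is sent to `∞` if `denom x = 0`, and to `num x / denom x` otherwise.
The point `∞` is sent to `∞` if `deg denom < deg num`, and otherwise to the limit of `h` at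
infinity, which is the quotient of the coefficients of degree `deg denom`. -/
noncomputable def toMap (h : RatFunc ℂ) : OnePoint ℂ → OnePoint ℂ
  | Option.none => if h.denom.natDegree < h.num.natDegree then ∞
      else ((h.num.coeff h.denom.natDegree / h.denom.leadingCoeff : ℂ) : OnePoint ℂ)
  | Option.some x => if h.denom.eval x = 0 then ∞
      else ((h.num.eval x / h.denom.eval x : ℂ) : OnePoint ℂ)

/-- The degree of a rational function. -/
noncomputable def degree (h : RatFunc ℂ) : ℕ := max h.num.natDegree h.denom.natDegree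

/-- The set of pairs `(m, n)` for which some `x` in `P¹(ℂ)` satisfies
`c x = f^m x = g^n x` (iterates). -/
noncomputable def recurrence₂ (f g c : RatFunc ℂ) : Set (ℕ × ℕ) :=
  {p | ∃ x : OnePoint ℂ, toMap c x = (toMap f)^[p.1] x ∧ toMap c x = (toMap g)^[p.2] x}

theorem toMap_coe (h : RatFunc ℂ) (x : ℂ) : toMap h (x : OnePoint ℂ) =
    if h.denom.eval x = 0 then ∞ else ((h.num.eval x / h.denom.eval x : ℂ) : OnePoint ℂ) := rfl

theorem toMap_infty (h : RatFunc ℂ) : toMap h (∞ : OnePoint ℂ) =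
    if h.denom.natDegree < h.num.natDegree then ∞
      else ((h.num.coeff h.denom.natDegree / h.denom.leadingCoeff : ℂ) : OnePoint ℂ) := rfl

/-! ### The maps `z ^ 2` and `ω / z` -/

theorem sq_num : (RatFunc.X ^ 2 : RatFunc ℂ).num = X ^ 2 := by
  rw [show (RatFunc.X ^ 2 : RatFunc ℂ) = algebraMap ℂ[X] (RatFunc ℂ) (X ^ 2) by simp,
    RatFunc.num_algebraMap]

theorem sq_denom : (RatFunc.X ^ 2 : RatFunc ℂ).denom = 1 := by
  rw [show (RatFunc.X ^ 2 : RatFunc ℂ) = algebraMap ℂ[X] (RatFunc ℂ) (X ^ 2) by simp,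
    RatFunc.denom_algebraMap]

theorem sq_coe (x : ℂ) : toMap (RatFunc.X ^ 2) (x : OnePoint ℂ) = ((x ^ 2 : ℂ) : OnePoint ℂ) := by
  rw [toMap_coe, sq_num, sq_denom]
  simp

theorem sq_infty : toMap (RatFunc.X ^ 2) (∞ : OnePoint ℂ) = ∞ := by
  rw [toMap_infty, sq_num, sq_denom]
  simp

theorem sq_iter_coe (m : ℕ) (x : ℂ) :
    (toMap (RatFunc.X ^ 2))^[m] (x : OnePoint ℂ) = ((x ^ 2 ^ m : ℂ) : OnePoint ℂ) := by
  induction m generalizing x with
  | zero => simp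
  | succ m ih => rw [Function.iterate_succ_apply, sq_coe, ih, ← pow_mul, pow_succ 2 m, mul_comm 2]

theorem sq_iter_infty (m : ℕ) : (toMap (RatFunc.X ^ 2))^[m] (∞ : OnePoint ℂ) = ∞ := by
  induction m with
  | zero => rfl
  | succ m ih => rw [Function.iterate_succ_apply, sq_infty, ih]

theorem inv_eq (ω : ℂ) : (RatFunc.C ω / RatFunc.X : RatFunc ℂ) =
    algebraMap ℂ[X] (RatFunc ℂ) (C ω) / algebraMap ℂ[X] (RatFunc ℂ) X := by
  simp

theorem inv_num (ω : ℂ) (h0 : ω ≠ 0) : (RatFunc.C ω / RatFunc.X : RatFunc ℂ).num = C ω := by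
  rw [inv_eq, RatFunc.num_div]
  have h : gcd (C ω) (X : ℂ[X]) = 1 := by
    have h1 : IsUnit (gcd (C ω) (X : ℂ[X])) :=
      isUnit_of_dvd_unit (gcd_dvd_left _ _) (isUnit_C.mpr (isUnit_iff_ne_zero.mpr h0))
    rw [← normalize_gcd, normalize_eq_one]
    exact h1
  rw [h]
  simp

theorem inv_denom (ω : ℂ) (h0 : ω ≠ 0) : (RatFunc.C ω / RatFunc.X : RatFunc ℂ).denom = X := by
  rw [inv_eq, RatFunc.denom_div _ X_ne_zero]
  have h : gcd (C ω) (X : ℂ[X]) = 1 := by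
    have h1 : IsUnit (gcd (C ω) (X : ℂ[X])) :=
      isUnit_of_dvd_unit (gcd_dvd_left _ _) (isUnit_C.mpr (isUnit_iff_ne_zero.mpr h0))
    rw [← normalize_gcd, normalize_eq_one]
    exact h1
  rw [h]
  simp

theorem inv_coe (ω : ℂ) (h0 : ω ≠ 0) (x : ℂ) (hx : x ≠ 0) :
    toMap (RatFunc.C ω / RatFunc.X) (x : OnePoint ℂ) = ((ω / x : ℂ) : OnePoint ℂ) := by
  rw [toMap_coe, inv_num ω h0, inv_denom ω h0]
  simp [hx]

theorem inv_zero (ω : ℂ) (h0 : ω ≠ 0) :
    toMap (RatFunc.C ω / RatFunc.X) ((0 : ℂ) : OnePoint ℂ) = ∞ := by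
  rw [toMap_coe, inv_num ω h0, inv_denom ω h0]
  simp

theorem inv_infty (ω : ℂ) (h0 : ω ≠ 0) :
    toMap (RatFunc.C ω / RatFunc.X) (∞ : OnePoint ℂ) = ((0 : ℂ) : OnePoint ℂ) := by
  rw [toMap_infty, inv_num ω h0, inv_denom ω h0]
  simp

/-- Membership in the recurrence set of `(z ^ 2, z ^ 2, ω / z)`. -/
theorem mem_iff (ω : ℂ) (h0 : ω ≠ 0) (m n : ℕ) :
    (m, n) ∈ recurrence₂ (RatFunc.X ^ 2) (RatFunc.X ^ 2) (RatFunc.C ω / RatFunc.X) ↔
      ∃ x : ℂ, x ^ (2 ^ m + 1) = ω ∧ x ^ (2 ^ n + 1) = ω := by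
  constructor
  · rintro ⟨x, h1, h2⟩
    induction x using OnePoint.rec with
    | infty =>
      rw [inv_infty ω h0, sq_iter_infty] at h1
      exact absurd h1 (OnePoint.coe_ne_infty _)
    | coe x =>
      by_cases hx : x = 0
      · subst hx
        rw [inv_zero ω h0, sq_iter_coe] at h1
        exact absurd h1 (OnePoint.infty_ne_coe _)
      · rw [inv_coe ω h0 x hx, sq_iter_coe, OnePoint.coe_eq_coe, div_eq_iff hx, ← pow_succ] at h1 h2
        exact ⟨x, h1.symm, h2.symm⟩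
  · rintro ⟨x, h1, h2⟩
    have hx : x ≠ 0 := by
      rintro rfl
      rw [zero_pow (Nat.succ_ne_zero _)] at h1
      exact h0 h1.symm
    refine ⟨(x : OnePoint ℂ), ?_, ?_⟩
    · rw [inv_coe ω h0 x hx, sq_iter_coe, OnePoint.coe_eq_coe, div_eq_iff hx, ← pow_succ, h1]
    · rw [inv_coe ω h0 x hx, sq_iter_coe, OnePoint.coe_eq_coe, div_eq_iff hx, ← pow_succ, h2]

/-! ### Arithmetic -/

theorem three_pow_dvd (k : ℕ) : 3 ^ (k + 1) ∣ 2 ^ 3 ^ k + 1 := by
  induction k with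
  | zero => norm_num
  | succ k ih =>
    obtain ⟨u, hu⟩ := ih
    have hcast : ((2 : ℤ) ^ 3 ^ k) = 3 ^ (k + 1) * u - 1 := by
      have : ((2 ^ 3 ^ k + 1 : ℕ) : ℤ) = ((3 ^ (k + 1) * u : ℕ) : ℤ) := by rw [hu]
      push_cast at this
      linarith
    have h : ((3 : ℤ) ^ (k + 1 + 1)) ∣ (2 : ℤ) ^ 3 ^ (k + 1) + 1 := by
      rw [show (2 : ℤ) ^ 3 ^ (k + 1) = ((2 : ℤ) ^ 3 ^ k) ^ 3 by rw [← pow_mul, pow_succ 3 k],
        hcast]
      refine ⟨u * (3 ^ (2 * k + 1) * u ^ 2 - 3 ^ (k + 1) * u + 1), ?_⟩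
      ring
    exact_mod_cast h

/-- If `x ^ A = ω = x ^ B` and `3 ^ (k + 1) ∣ A`, then `3 ^ (k + 1) ∣ B`. -/
theorem dvd_of_pow_eq {ω x : ℂ} (hω : IsPrimitiveRoot ω 3) {A B j : ℕ} (hB : B ≠ 0)
    (hA : x ^ A = ω) (hxB : x ^ B = ω) (h : 3 ^ j ∣ A) : 3 ^ j ∣ B := by
  by_contra hn
  obtain ⟨i, u, hu, hBu⟩ := Nat.exists_eq_pow_mul_and_not_dvd hB 3 (by norm_num)
  have hij : i < j := by
    by_contra hle
    exact hn (hBu ▸ dvd_mul_of_dvd_left (pow_dvd_pow 3 (not_lt.mp hle)) u)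
  obtain ⟨w, hw⟩ : 3 ^ i * 3 ∣ A := by
    rw [← pow_succ]
    exact (pow_dvd_pow 3 hij).trans h
  have h1 : (x ^ A) ^ u = 1 := by
    calc (x ^ A) ^ u = (x ^ B) ^ (3 * w) := by
          rw [hw, hBu, ← pow_mul, ← pow_mul]
          congr 1
          ring
      _ = 1 := by rw [hxB, pow_mul, hω.pow_eq_one, one_pow]
  rw [hA] at h1
  exact hu ((hω.pow_eq_one_iff_dvd u).mp h1)

theorem slice_dvd {ω : ℂ} (hω : IsPrimitiveRoot ω 3) {k n : ℕ}
    (h : (3 ^ k, n) ∈ recurrence₂ (RatFunc.X ^ 2) (RatFunc.X ^ 2) (RatFunc.C ω / RatFunc.X)) :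
    3 ^ (k + 1) ∣ 2 ^ n + 1 := by
  rw [mem_iff ω (hω.ne_zero (by norm_num))] at h
  obtain ⟨x, h1, h2⟩ := h
  exact dvd_of_pow_eq hω (Nat.succ_ne_zero _) h1 h2 (three_pow_dvd k)

theorem slice_infinite {ω : ℂ} (hω : IsPrimitiveRoot ω 3) {m : ℕ} (hm : m ≠ 0) (N : ℕ) :
    ∃ n, N ≤ n ∧
      (m, n) ∈ recurrence₂ (RatFunc.X ^ 2) (RatFunc.X ^ 2) (RatFunc.C ω / RatFunc.X) := by
  obtain ⟨x, hx⟩ := IsAlgClosed.exists_pow_nat_eq ω (n := 2 ^ m + 1) (Nat.succ_pos _)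
  obtain ⟨M, hM⟩ : ∃ M, M = 3 * (2 ^ m + 1) := ⟨_, rfl⟩
  have hodd : Odd M := by
    rw [hM]
    exact Odd.mul (by decide) (Even.add_one ((Nat.even_pow).mpr ⟨even_two, hm⟩))
  have hxM : x ^ M = 1 := by
    rw [hM, mul_comm, pow_mul, hx, hω.pow_eq_one]
  refine ⟨m + M.totient * N, ?_, ?_⟩
  · have : 0 < M.totient := Nat.totient_pos.mpr hodd.pos
    nlinarith
  · rw [mem_iff ω (hω.ne_zero (by norm_num))]
    refine ⟨x, hx, ?_⟩
    have hc : 2 ^ (M.totient * N) ≡ 1 [MOD M] := by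
      have := (Nat.ModEq.pow_totient (n := M) (x := 2) ((Nat.coprime_two_left).mpr hodd)).pow N
      rw [one_pow, ← pow_mul] at this
      exact this
    have hc' : (2 ^ (m + M.totient * N) + 1) ≡ (2 ^ m + 1) [MOD M] := by
      rw [pow_add]
      simpa using (hc.mul_left (2 ^ m)).add_right 1
    have hperiod : ∀ a b : ℕ, a ≡ b [MOD M] → x ^ a = x ^ b := by
      intro a b hab
      have key : ∀ a : ℕ, x ^ a = x ^ (a % M) := by
        intro a
        conv_lhs => rw [← Nat.div_add_mod a M, pow_add, pow_mul, hxM, one_pow, one_mul]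
      rw [key a, key b, hab]
    rw [hperiod _ _ hc', hx]

/-! ### Semi-linear sets with infinite slices -/

/-- If the closure of `P` has unbounded slices then `P` contains a vertical vector. -/
theorem closure_bound (P : Set (ℕ × ℕ)) (B : ℕ) (hB : ∀ p ∈ P, p.2 ≤ B * p.1) (e : ℕ × ℕ)
    (he : e ∈ AddSubmonoid.closure P) : e.2 ≤ B * e.1 := by
  induction he using AddSubmonoid.closure_induction with
  | mem x hx => exact hB x hx
  | zero => simp
  | add x y _ _ hx hy =>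
    simp only [Prod.snd_add, Prod.fst_add]
    linarith [mul_add B x.1 y.1]

theorem linear_vertical {L : Set (ℕ × ℕ)} (a : ℕ × ℕ) (P : Set (ℕ × ℕ)) (hP : P.Finite)
    (hL : L = a +ᵥ (AddSubmonoid.closure P : Set (ℕ × ℕ))) (m : ℕ)
    (hinf : ∀ N, ∃ n, N ≤ n ∧ (m, n) ∈ L) :
    ∃ q, 0 < q ∧ (0, q) ∈ P ∧ ∀ x ∈ L, x + (0, q) ∈ L := by
  by_contra hcon
  push Not at hcon
  have hadd : ∀ q, (0, q) ∈ P → ∀ x ∈ L, x + (0, q) ∈ L := by
    intro q hq x hx
    rw [hL, Set.mem_vadd_set] at hx ⊢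
    obtain ⟨e, he, rfl⟩ := hx
    refine ⟨e + (0, q), add_mem he (AddSubmonoid.subset_closure hq), ?_⟩
    simp [vadd_eq_add, add_assoc]
  obtain ⟨B, hB⟩ : ∃ B, ∀ p ∈ P, p.2 ≤ B := by
    obtain ⟨B, hB⟩ := (hP.image Prod.snd).bddAbove
    exact ⟨B, fun p hp => hB ⟨p, hp, rfl⟩⟩
  have hB' : ∀ p ∈ P, p.2 ≤ B * p.1 := by
    intro p hp
    rcases Nat.eq_zero_or_pos p.1 with h | h
    · rcases Nat.eq_zero_or_pos p.2 with h2 | h2
      · omega
      · exfalso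
        have hp' : (0, p.2) ∈ P := by
          rw [← h]
          exact hp
        obtain ⟨x, hx, hx'⟩ := hcon p.2 h2 hp'
        exact hx' (hadd p.2 hp' x hx)
    · calc p.2 ≤ B := hB p hp
        _ ≤ B * p.1 := Nat.le_mul_of_pos_right _ h
  obtain ⟨n, hn, hmem⟩ := hinf (a.2 + B * m + 1)
  rw [hL, Set.mem_vadd_set] at hmem
  obtain ⟨e, he, heq⟩ := hmem
  have h1 := closure_bound P B hB' e he
  have h2 : a.1 + e.1 = m := by
    have := congrArg Prod.fst heq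
    simpa using this
  have h3 : a.2 + e.2 = n := by
    have := congrArg Prod.snd heq
    simpa using this
  have h4 : B * e.1 ≤ B * m := Nat.mul_le_mul_left _ (by omega)
  omega

theorem not_semilinear {ω : ℂ} (hω : IsPrimitiveRoot ω 3) :
    ¬ IsSemilinearSet
      (recurrence₂ (RatFunc.X ^ 2) (RatFunc.X ^ 2) (RatFunc.C ω / RatFunc.X)) := by
  rintro ⟨S, hS, hlin, hunion⟩
  classical
  choose! a P hP hL using hlin
  -- a common bound for the second coordinates of the periods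
  obtain ⟨Q, hQ⟩ : ∃ Q, ∀ t ∈ S, ∀ p ∈ P t, p.2 ≤ Q := by
    have hfin : (⋃ t ∈ S, Prod.snd '' P t).Finite :=
      hS.biUnion fun t ht => (hP t ht).image _
    obtain ⟨Q, hQ⟩ := hfin.bddAbove
    exact ⟨Q, fun t ht p hp => hQ (Set.mem_biUnion ht ⟨p, hp, rfl⟩)⟩
  -- some member of `S` has an infinite slice over `3 ^ Q`
  have hex : ∃ t ∈ S, ∀ N, ∃ n, N ≤ n ∧ (3 ^ Q, n) ∈ t := by
    by_contra hcon
    push Not at hcon
    choose! N hN using hcon
    obtain ⟨N₀, hN₀⟩ : ∃ N₀, ∀ t ∈ S, N t ≤ N₀ := by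
      obtain ⟨N₀, h⟩ := (hS.image N).bddAbove
      exact ⟨N₀, fun t ht => h ⟨t, ht, rfl⟩⟩
    obtain ⟨n, hn, hmem⟩ := slice_infinite hω (pow_ne_zero Q (by norm_num : (3 : ℕ) ≠ 0)) N₀
    rw [hunion] at hmem
    obtain ⟨t, ht, hmem⟩ := hmem
    exact hN t ht n ((hN₀ t ht).trans hn) hmem
  obtain ⟨t, ht, hinf⟩ := hex
  obtain ⟨q, hq0, hqP, hq⟩ := linear_vertical (a t) (P t) (hP t ht) (hL t ht) (3 ^ Q) hinf
  obtain ⟨n, -, hn⟩ := hinf 0
  have hn' := hq _ hn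
  have hsub : ∀ p ∈ t,
      p ∈ recurrence₂ (RatFunc.X ^ 2) (RatFunc.X ^ 2) (RatFunc.C ω / RatFunc.X) := by
    intro p hp
    rw [hunion]
    exact ⟨t, ht, hp⟩
  have h1 := slice_dvd hω (hsub _ hn)
  have h2 : 3 ^ (Q + 1) ∣ 2 ^ (n + q) + 1 := by
    have := hsub _ hn'
    simp only [Prod.mk_add_mk, add_zero] at this
    exact slice_dvd hω this
  have h3 : 3 ^ (Q + 1) ∣ 2 ^ q - 1 := by
    have h4 : 3 ^ (Q + 1) ∣ (2 ^ (n + q) + 1) - (2 ^ n + 1) := Nat.dvd_sub h2 h1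
    have h5 : (2 ^ (n + q) + 1) - (2 ^ n + 1) = 2 ^ n * (2 ^ q - 1) := by
      rw [pow_add, Nat.mul_sub, mul_one]
      omega
    rw [h5] at h4
    exact (Nat.Coprime.dvd_of_dvd_mul_left (Nat.Coprime.pow _ _ (by norm_num)) h4)
  have h6 : q ≤ Q := hQ t ht _ hqP
  have h7 : 2 ^ q - 1 < 3 ^ (Q + 1) := by
    have h8 : 2 ^ q ≤ 2 ^ (Q + 1) := Nat.pow_le_pow_right (by norm_num) (by omega)
    have h9 : 2 ^ (Q + 1) ≤ 3 ^ (Q + 1) := Nat.pow_le_pow_left (by norm_num) _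
    have h10 : 0 < 2 ^ q := by positivity
    omega
  have h8 : 0 < 2 ^ q - 1 := by
    have : 2 ^ 1 ≤ 2 ^ q := Nat.pow_le_pow_right (by norm_num) hq0
    omega
  exact absurd (Nat.le_of_dvd h8 h3) (not_le.mpr h7)

/-- There are rational functions `f`, `g`, `c` over `ℂ`, all nonconstant and with `f` and `g` of
degree at least `2`, whose rank-two recurrence set is not semi-linear. -/
theorem result : ∃ f g c : RatFunc ℂ, 2 ≤ degree f ∧ 2 ≤ degree g ∧ 1 ≤ degree c ∧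
    ¬ IsSemilinearSet (recurrence₂ f g c) := by
  obtain ⟨ω, hω⟩ : ∃ ω : ℂ, IsPrimitiveRoot ω 3 := ⟨_, Complex.isPrimitiveRoot_exp 3 (by norm_num)⟩
  refine ⟨RatFunc.X ^ 2, RatFunc.X ^ 2, RatFunc.C ω / RatFunc.X, ?_, ?_, ?_, not_semilinear hω⟩
  · simp [degree, sq_num, sq_denom]
  · simp [degree, sq_num, sq_denom]
  · simp [degree, inv_num ω (hω.ne_zero (by norm_num)), inv_denom ω (hω.ne_zero (by norm_num))]

end Pool.Agent.Results.MP_2fa0cb_nt.RankTwoNotSemilinear
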